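import Pool.Agent.Results.MP_4ffbf9_nt.HighDegreeCount
import Pool.Agent.Y854.GM.Win

/-!
# Windows without largest factors of solutions of `A X + B Y = C Z` in products of small spread

Let `v ≥ 1` be a sequence with exponent of convergence at most `τ` (for `v_k = k ^ b` this is `1 / b`, for `v_k = b ^ k`
or `k!` it is `0`) and `θ < 1`. For all `α > 0` outside a set of Hausdorff dimension at most `τ / (1 - θ)` there are `R`
and `δ > 0` such that for all but finitely many `k` there is no solution of `A X + B Y = C Z` with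
`gcd (X, Y) ≤ Q rad (gcd (X, Y))`, coefficients `A, B, C ≤ exp (M ^ δ)` without prime factors larger than `P` and `X`, `Y`,
`Z` products of spread at most `S` of degrees between `R` and `M ^ δ`, whose largest factor `M` satisfies
`|M - α v_k| ≤ v_k ^ θ`.
-/

set_option autoImplicit false

open Finset Filter Topology
open scoped ENNReal

namespace Pool.Agent.Results.MP_4ffbf9_nt.FactorWindows

open HighDegreeCount (IsProduct Solutions)

/-- the exponent of convergence of the sequence `v` is at most `τ` -/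
def ExpLe (v : ℕ → ℝ) (τ : ℝ) : Prop := ∀ t : ℝ, τ < t → Summable (fun n : ℕ => (v n) ^ (-t))

/-- the list `l` is a product of degree between `R` and `D`, with all factors between `1` and `M`, of spread at most `S` -/
def Member (S R : ℕ) (D : ℝ) (M : ℕ) (l : List ℕ) : Prop :=
  R ≤ l.length ∧ (l.length : ℝ) ≤ D ∧ (∀ a ∈ l, 1 ≤ a ∧ a ≤ M) ∧ ∀ a ∈ l, ∀ a' ∈ l, a ≤ a' + S

/-- a positive integer at most `exp D` without prime factors larger than `P` -/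
def Coef (P : ℕ) (D : ℝ) (a : ℕ) : Prop := 0 < a ∧ (a : ℝ) ≤ Real.exp D ∧ ∀ p : ℕ, p.Prime → p ∣ a → p ≤ P

/-- there is a solution with largest factor `M` -/
def Solved (S Q P R : ℕ) (δ : ℝ) (M : ℕ) : Prop :=
  ∃ (A B C : ℕ) (l₁ l₂ l₃ : List ℕ), Coef P ((M : ℝ) ^ δ) A ∧ Coef P ((M : ℝ) ^ δ) B ∧ Coef P ((M : ℝ) ^ δ) C ∧
    A * l₁.prod + B * l₂.prod = C * l₃.prod ∧
    Nat.gcd l₁.prod l₂.prod ≤ Q * ∏ p ∈ (Nat.gcd l₁.prod l₂.prod).primeFactors, p ∧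
    Member S R ((M : ℝ) ^ δ) M l₁ ∧ Member S R ((M : ℝ) ^ δ) M l₂ ∧ Member S R ((M : ℝ) ^ δ) M l₃ ∧
    (M ∈ l₁ ∨ M ∈ l₂ ∨ M ∈ l₃)

/-- two lists of the same length, the same product and small spread have almost the same largest element -/
lemma near {S M M' : ℕ} {l l' : List ℕ} (hp : l.prod = l'.prod) (hl : l.length = l'.length) (hM : M ∈ l)
    (h : ∀ a ∈ l, ∀ a' ∈ l, a ≤ a' + S) (h' : ∀ a ∈ l', a ≤ M') : M ≤ M' + S := by
  have h1 : (M - S) ^ l.length ≤ l.prod := by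
    apply List.pow_card_le_prod
    intro a ha
    have := h M hM a ha
    omega
  have h2 : l'.prod ≤ M' ^ l'.length := List.prod_le_pow_card _ _ h'
  rw [hp, hl] at h1
  have h3 : l'.length ≠ 0 := by
    rw [← hl]
    exact (List.length_pos_of_mem hM).ne'
  have h4 := (Nat.pow_le_pow_iff_left h3).1 (h1.trans h2)
  omega

open Classical in
/-- the number of coefficients -/
lemma card_coef (P : ℕ) (D : ℝ) (hD : 1 ≤ D) :
    (((Icc 1 ⌊Real.exp D⌋₊).filter (fun a : ℕ => ∀ p : ℕ, p.Prime → p ∣ a → p ≤ P)).card : ℝ) ≤ (3 * D) ^ (P + 1) := by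
  set N : ℕ := ⌊Real.exp D⌋₊ with hN
  have hcard : ((Icc 1 N).filter (fun a : ℕ => ∀ p : ℕ, p.Prime → p ∣ a → p ≤ P)).card ≤
      (Fintype.piFinset (fun _ : Fin (P + 1) => range (Nat.log 2 N + 1))).card := by
    apply Finset.card_le_card_of_injOn (fun a => fun p : Fin (P + 1) => a.factorization (p : ℕ))
    · intro a ha
      rw [mem_coe, mem_filter, mem_Icc] at ha
      rw [mem_coe, Fintype.mem_piFinset]
      intro p
      rw [mem_range, Nat.lt_succ_iff]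
      by_cases hp : (p : ℕ).Prime
      · apply Nat.le_log_of_pow_le (by norm_num)
        calc 2 ^ (a.factorization (p : ℕ)) ≤ (p : ℕ) ^ (a.factorization (p : ℕ)) := Nat.pow_le_pow_left hp.two_le _
          _ ≤ a := Nat.ordProj_le _ (by omega)
          _ ≤ N := ha.1.2
      · change a.factorization (p : ℕ) ≤ Nat.log 2 N
        rw [Nat.factorization_eq_zero_of_not_prime _ hp]
        exact Nat.zero_le _
    · intro a ha a' ha' he
      rw [mem_coe, mem_filter, mem_Icc] at ha ha'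
      apply Nat.eq_of_factorization_eq (by omega) (by omega)
      intro p
      by_cases hp : p ≤ P
      · exact congrFun he ⟨p, by omega⟩
      · have h1 : ∀ b : ℕ, (∀ p : ℕ, p.Prime → p ∣ b → p ≤ P) → b.factorization p = 0 := by
          intro b hb
          by_cases hpp : p.Prime
          · exact Nat.factorization_eq_zero_of_not_dvd fun hd => hp (hb p hpp hd)
          · exact Nat.factorization_eq_zero_of_not_prime _ hpp
        rw [h1 a ha.2, h1 a' ha'.2]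
  have hlog : ((Nat.log 2 N : ℕ) : ℝ) ≤ 2 * D := by
    have h1 : 1 ≤ N := by
      rw [hN]
      apply Nat.le_floor
      push_cast
      exact Real.one_le_exp (by linarith)
    have h2 : (2 : ℝ) ^ (Nat.log 2 N) ≤ Real.exp D := by
      have h3 : 2 ^ (Nat.log 2 N) ≤ N := Nat.pow_log_le_self 2 (by omega)
      calc (2 : ℝ) ^ (Nat.log 2 N) ≤ N := by exact_mod_cast h3
        _ ≤ Real.exp D := Nat.floor_le (Real.exp_pos D).le
    have h4 : (Nat.log 2 N : ℝ) * Real.log 2 ≤ D := by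
      rw [← Real.log_pow, Real.log_le_iff_le_exp (by positivity)]
      exact h2
    have h5 : (1 / 2 : ℝ) < Real.log 2 := by
      have := Real.log_two_gt_d9
      linarith
    have h6 : (0 : ℝ) ≤ (Nat.log 2 N : ℝ) := by positivity
    nlinarith
  rw [Fintype.card_piFinset_const, card_range] at hcard
  calc ((((Icc 1 N).filter (fun a : ℕ => ∀ p : ℕ, p.Prime → p ∣ a → p ≤ P)).card : ℕ) : ℝ)
      ≤ (((Nat.log 2 N + 1) ^ (P + 1) : ℕ) : ℝ) := by
        refine (Nat.cast_le.2 hcard).trans (le_of_eq ?_)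
        simp
    _ = ((Nat.log 2 N : ℝ) + 1) ^ (P + 1) := by push_cast; ring
    _ ≤ (3 * D) ^ (P + 1) := by
        apply pow_le_pow_left₀ (by positivity)
        linarith

open Classical in
/-- the number of largest factors for given coefficients -/
lemma count_one (S Q R : ℕ) (D : ℝ) (X A B C : ℕ) (hfin : (Solutions S Q X R D A B C).Finite) :
    ((Ioc 0 X).filter (fun M => ∃ l₁ l₂ l₃ : List ℕ, A * l₁.prod + B * l₂.prod = C * l₃.prod ∧
      Nat.gcd l₁.prod l₂.prod ≤ Q * ∏ p ∈ (Nat.gcd l₁.prod l₂.prod).primeFactors, p ∧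
      Member S R D M l₁ ∧ Member S R D M l₂ ∧ Member S R D M l₃ ∧ (M ∈ l₁ ∨ M ∈ l₂ ∨ M ∈ l₃))).card ≤
      (Solutions S Q X R D A B C).ncard * (3 * ((⌊D⌋₊ + 1) * (S + 1))) := by
  have hc : (hfin.toFinset ×ˢ ((univ : Finset (Fin 3)) ×ˢ (range (⌊D⌋₊ + 1) ×ˢ range (S + 1)))).card =
      (Solutions S Q X R D A B C).ncard * (3 * ((⌊D⌋₊ + 1) * (S + 1))) := by
    rw [card_product, card_product, card_product, card_range, card_range, ← Set.ncard_eq_toFinset_card _ hfin]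
    simp
  rw [← hc]
  apply Finset.card_le_card_of_forall_subsingleton (fun (M : ℕ) (t : (ℕ × ℕ × ℕ) × (Fin 3 × (ℕ × ℕ))) =>
    ∃ l : List ℕ, l.prod = (![t.1.1, t.1.2.1, t.1.2.2] : Fin 3 → ℕ) t.2.1 ∧ l.length = t.2.2.1 ∧ M ∈ l ∧
      (∀ a ∈ l, a ≤ M) ∧ (∀ a ∈ l, ∀ a' ∈ l, a ≤ a' + S) ∧ M % (S + 1) = t.2.2.2)
  · intro M hM
    rw [mem_filter, mem_Ioc] at hM
    obtain ⟨⟨-, hMX⟩, l₁, l₂, l₃, h1, h2, h3, h4, h5, h6⟩ := hM
    have hpr : ∀ l : List ℕ, Member S R D M l → IsProduct S X R D l.prod := fun l hl =>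
      ⟨l, rfl, hl.1, hl.2.1, fun a ha => ⟨(hl.2.2.1 a ha).1, (hl.2.2.1 a ha).2.trans hMX⟩, hl.2.2.2⟩
    have hw : (l₁.prod, l₂.prod, l₃.prod) ∈ Solutions S Q X R D A B C :=
      ⟨h1, h2, hpr _ h3, hpr _ h4, hpr _ h5⟩
    have key : ∀ (l : List ℕ) (i : Fin 3), Member S R D M l → M ∈ l →
        l.prod = (![l₁.prod, l₂.prod, l₃.prod] : Fin 3 → ℕ) i →
        ∃ b, b ∈ hfin.toFinset ×ˢ ((univ : Finset (Fin 3)) ×ˢ (range (⌊D⌋₊ + 1) ×ˢ range (S + 1))) ∧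
          ∃ l : List ℕ, l.prod = (![b.1.1, b.1.2.1, b.1.2.2] : Fin 3 → ℕ) b.2.1 ∧ l.length = b.2.2.1 ∧ M ∈ l ∧
            (∀ a ∈ l, a ≤ M) ∧ (∀ a ∈ l, ∀ a' ∈ l, a ≤ a' + S) ∧ M % (S + 1) = b.2.2.2 := by
      intro l i hl hMl hprod
      refine ⟨((l₁.prod, l₂.prod, l₃.prod), (i, (l.length, M % (S + 1)))), ?_, l, hprod, rfl, hMl,
        fun a ha => (hl.2.2.1 a ha).2, hl.2.2.2, rfl⟩
      rw [mem_product, mem_product, mem_product, Set.Finite.mem_toFinset, mem_range, mem_range]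
      exact ⟨hw, mem_univ _, Nat.lt_succ_of_le (Nat.le_floor hl.2.1), Nat.mod_lt _ (Nat.succ_pos S)⟩
    rcases h6 with h6 | h6 | h6
    · exact key l₁ 0 h3 h6 rfl
    · exact key l₂ 1 h4 h6 rfl
    · exact key l₃ 2 h5 h6 rfl
  · intro t ht M hM M' hM'
    obtain ⟨-, l, e1, e2, e3, e4, e5, e6⟩ := hM
    obtain ⟨-, l', e1', e2', e3', e4', e5', e6'⟩ := hM'
    have g1 : M ≤ M' + S := near (e1.trans e1'.symm) (e2.trans e2'.symm) e3 e5 e4'
    have g2 : M' ≤ M + S := near (e1'.trans e1.symm) (e2'.trans e2.symm) e3' e5' e4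
    have g3 : M ≡ M' [MOD (S + 1)] := e6.trans e6'.symm
    apply g3.eq_of_abs_lt
    rw [abs_lt]
    push_cast
    constructor <;> omega

open Classical in
/-- the number of largest factors of solutions -/
lemma count (S Q P : ℕ) (η : ℝ) (hη : 0 < η) : ∃ (R : ℕ) (δ : ℝ), 0 < δ ∧ ∃ C : ℝ, 0 ≤ C ∧ ∀ X : ℕ, 1 ≤ X →
    (((Ioc 0 X).filter (fun M => Solved S Q P R δ M)).card : ℝ) ≤ C * (X : ℝ) ^ η := by
  obtain ⟨R, δ₀, hδ₀, H⟩ := HighDegreeCount.result S Q P (η / 2) (by positivity)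
  set e : ℝ := 3 * ((P : ℝ) + 1) + 1 with he
  have he0 : 0 < e := by positivity
  set δ : ℝ := min δ₀ (η / (2 * e)) with hδ
  have hδpos : 0 < δ := lt_min hδ₀ (by positivity)
  have hδe : δ * e ≤ η / 2 := by
    have h1 : δ ≤ η / (2 * e) := min_le_right _ _
    calc δ * e ≤ η / (2 * e) * e := mul_le_mul_of_nonneg_right h1 he0.le
      _ = η / 2 := by field_simp
  refine ⟨R, δ, hδpos, (3 ^ (P + 1)) ^ 3 * (6 * ((S : ℝ) + 1)), by positivity, fun X hX => ?_⟩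
  have hX1 : (1 : ℝ) ≤ X := by exact_mod_cast hX
  set D : ℝ := (X : ℝ) ^ δ with hD
  have hD1 : 1 ≤ D := Real.one_le_rpow hX1 hδpos.le
  have hDD : D ≤ (X : ℝ) ^ δ₀ := Real.rpow_le_rpow_of_exponent_le hX1 (min_le_left _ _)
  set K : Finset ℕ := (Icc 1 ⌊Real.exp D⌋₊).filter (fun a : ℕ => ∀ p : ℕ, p.Prime → p ∣ a → p ≤ P) with hK
  have hKc : (K.card : ℝ) ≤ (3 * D) ^ (P + 1) := card_coef P D hD1
  set V : ℕ × ℕ × ℕ → Finset ℕ := fun c => (Ioc 0 X).filter (fun M => ∃ l₁ l₂ l₃ : List ℕ,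
    c.1 * l₁.prod + c.2.1 * l₂.prod = c.2.2 * l₃.prod ∧
      Nat.gcd l₁.prod l₂.prod ≤ Q * ∏ p ∈ (Nat.gcd l₁.prod l₂.prod).primeFactors, p ∧
      Member S R D M l₁ ∧ Member S R D M l₂ ∧ Member S R D M l₃ ∧ (M ∈ l₁ ∨ M ∈ l₂ ∨ M ∈ l₃)) with hV
  have hsub : (Ioc 0 X).filter (fun M => Solved S Q P R δ M) ⊆ (K ×ˢ (K ×ˢ K)).biUnion V := by
    intro M hM
    rw [mem_filter, mem_Ioc] at hM
    obtain ⟨⟨hM0, hMX⟩, A, B, C, l₁, l₂, l₃, hA, hB, hC, h1, h2, h3, h4, h5, h6⟩ := hM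
    have hMD : (M : ℝ) ^ δ ≤ D := Real.rpow_le_rpow (by positivity) (by exact_mod_cast hMX) hδpos.le
    have hcoef : ∀ a : ℕ, Coef P ((M : ℝ) ^ δ) a → a ∈ K := by
      intro a ha
      rw [hK, mem_filter, mem_Icc]
      exact ⟨⟨ha.1, Nat.le_floor (ha.2.1.trans (Real.exp_le_exp.2 hMD))⟩, ha.2.2⟩
    have hmem : ∀ l : List ℕ, Member S R ((M : ℝ) ^ δ) M l → Member S R D M l := fun l hl =>
      ⟨hl.1, hl.2.1.trans hMD, hl.2.2.1, hl.2.2.2⟩
    rw [mem_biUnion]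
    refine ⟨(A, B, C), ?_, ?_⟩
    · rw [mem_product, mem_product]
      exact ⟨hcoef A hA, hcoef B hB, hcoef C hC⟩
    · rw [hV, mem_filter, mem_Ioc]
      exact ⟨⟨hM0, hMX⟩, l₁, l₂, l₃, h1, h2, hmem _ h3, hmem _ h4, hmem _ h5, h6⟩
  have hVc : ∀ c ∈ K ×ˢ (K ×ˢ K), ((V c).card : ℝ) ≤ (X : ℝ) ^ (η / 2) * (6 * D * ((S : ℝ) + 1)) := by
    intro c hc
    rw [mem_product, mem_product] at hc
    have hk : ∀ a ∈ K, 0 < a ∧ (a : ℝ) ≤ Real.exp ((X : ℝ) ^ δ₀) ∧ ∀ p : ℕ, p.Prime → p ∣ a → p ≤ P := by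
      intro a ha
      rw [hK, mem_filter, mem_Icc] at ha
      refine ⟨by omega, ?_, ha.2⟩
      calc (a : ℝ) ≤ (⌊Real.exp D⌋₊ : ℝ) := by exact_mod_cast ha.1.2
        _ ≤ Real.exp D := Nat.floor_le (Real.exp_pos D).le
        _ ≤ Real.exp ((X : ℝ) ^ δ₀) := Real.exp_le_exp.2 hDD
    obtain ⟨hf, hn⟩ := H X c.1 c.2.1 c.2.2 hX (by
      intro a ha
      simp only [mem_insert, mem_singleton] at ha
      rcases ha with rfl | rfl | rfl
      · exact hk _ hc.1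
      · exact hk _ hc.2.1
      · exact hk _ hc.2.2)
    have hsubS : Solutions S Q X R D c.1 c.2.1 c.2.2 ⊆ Solutions S Q X R ((X : ℝ) ^ δ₀) c.1 c.2.1 c.2.2 := by
      have hI : ∀ m, IsProduct S X R D m → IsProduct S X R ((X : ℝ) ^ δ₀) m := by
        rintro m ⟨l, h1, h2, h3, h4⟩
        exact ⟨l, h1, h2, h3.trans hDD, h4⟩
      rintro w ⟨h1, h2, h3, h4, h5⟩
      exact ⟨h1, h2, hI _ h3, hI _ h4, hI _ h5⟩
    have h1 := count_one S Q R D X c.1 c.2.1 c.2.2 (hf.subset hsubS)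
    have h2 : ((Solutions S Q X R D c.1 c.2.1 c.2.2).ncard : ℝ) ≤ (X : ℝ) ^ (η / 2) :=
      (Nat.cast_le.2 (Set.ncard_le_ncard hsubS hf)).trans hn
    have h3 : (⌊D⌋₊ : ℝ) ≤ D := Nat.floor_le (by linarith)
    calc ((V c).card : ℝ) ≤ (((Solutions S Q X R D c.1 c.2.1 c.2.2).ncard * (3 * ((⌊D⌋₊ + 1) * (S + 1))) : ℕ) : ℝ) := by
          exact_mod_cast h1
      _ = ((Solutions S Q X R D c.1 c.2.1 c.2.2).ncard : ℝ) * (3 * (((⌊D⌋₊ : ℝ) + 1) * ((S : ℝ) + 1))) := by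
          push_cast
          ring
      _ ≤ (X : ℝ) ^ (η / 2) * (6 * D * ((S : ℝ) + 1)) := by
          apply mul_le_mul h2 _ (by positivity) (by positivity)
          have h4 : ((⌊D⌋₊ : ℝ) + 1) * ((S : ℝ) + 1) ≤ (2 * D) * ((S : ℝ) + 1) :=
            mul_le_mul_of_nonneg_right (by linarith) (by positivity)
          linarith
  have hD0 : 0 < D := by linarith
  have hX0 : (0 : ℝ) < X := by linarith
  have hcast : (((P + 1 : ℕ) : ℝ)) = (P : ℝ) + 1 := by push_cast; ring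
  calc (((Ioc 0 X).filter (fun M => Solved S Q P R δ M)).card : ℝ)
      ≤ (((K ×ˢ (K ×ˢ K)).biUnion V).card : ℝ) := by exact_mod_cast card_le_card hsub
    _ ≤ ((∑ c ∈ K ×ˢ (K ×ˢ K), (V c).card : ℕ) : ℝ) := by exact_mod_cast card_biUnion_le
    _ = ∑ c ∈ K ×ˢ (K ×ˢ K), ((V c).card : ℝ) := by push_cast; rfl
    _ ≤ ∑ c ∈ K ×ˢ (K ×ˢ K), (X : ℝ) ^ (η / 2) * (6 * D * ((S : ℝ) + 1)) := sum_le_sum hVc
    _ = (K.card : ℝ) ^ 3 * ((X : ℝ) ^ (η / 2) * (6 * D * ((S : ℝ) + 1))) := by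
        rw [sum_const, card_product, card_product, nsmul_eq_mul]
        push_cast
        ring
    _ ≤ ((3 * D) ^ (P + 1)) ^ 3 * ((X : ℝ) ^ (η / 2) * (6 * D * ((S : ℝ) + 1))) := by
        apply mul_le_mul_of_nonneg_right _ (by positivity)
        exact pow_le_pow_left₀ (by positivity) hKc 3
    _ = (3 ^ (P + 1)) ^ 3 * (6 * ((S : ℝ) + 1)) * ((X : ℝ) ^ (η / 2) * (D ^ (3 * (P + 1) + 1))) := by
        rw [mul_pow]
        ring
    _ ≤ (3 ^ (P + 1)) ^ 3 * (6 * ((S : ℝ) + 1)) * ((X : ℝ) ^ (η / 2) * (X : ℝ) ^ (η / 2)) := by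
        apply mul_le_mul_of_nonneg_left _ (by positivity)
        apply mul_le_mul_of_nonneg_left _ (by positivity)
        rw [hD, ← Real.rpow_natCast, ← Real.rpow_mul hX0.le]
        apply Real.rpow_le_rpow_of_exponent_le hX1
        have h7 : (((3 * (P + 1) + 1 : ℕ) : ℝ)) = e := by
          rw [he]
          push_cast
          ring
        rw [h7]
        exact hδe
    _ = (3 ^ (P + 1)) ^ 3 * (6 * ((S : ℝ) + 1)) * (X : ℝ) ^ η := by
        rw [← Real.rpow_add hX0, add_halves]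

lemma one_family (S Q P : ℕ) {v : ℕ → ℝ} {τ θ : ℝ} (hv : ∀ k, 1 ≤ v k) (hτ : 0 ≤ τ) (hE : ExpLe v τ) (hθ1 : θ < 1) :
    ∃ E : Set ℝ, dimH E ≤ ENNReal.ofReal (τ / (1 - θ)) ∧ ∀ α : ℝ, 0 < α → α ∉ E →
      ∃ (R : ℕ) (δ : ℝ) (k₀ : ℕ), 0 < δ ∧ ∀ k : ℕ, k₀ ≤ k → ∀ M : ℕ, Solved S Q P R δ M →
        (v k) ^ θ < |(M : ℝ) - α * v k| := by
  classical
  have hall : ∀ j : ℕ, ∃ (R : ℕ) (δ : ℝ) (E : Set ℝ), 0 < δ ∧
      dimH E ≤ ENNReal.ofReal ((1 / ((j : ℝ) + 1) + τ) / (1 - θ)) ∧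
      ∀ α : ℝ, 0 < α → α ∉ E → ∃ k₀ : ℕ, ∀ k : ℕ, k₀ ≤ k → ∀ m : ℕ, |(m : ℝ) - α * v k| ≤ (v k) ^ θ →
        0 < m ∧ m ∉ {M : ℕ | Solved S Q P R δ M} := by
    intro j
    obtain ⟨R, δ, hδ, C, hC, h⟩ := count S Q P (1 / ((j : ℝ) + 1)) (by positivity)
    obtain ⟨E, h3, h4⟩ := Pool.Agent.Y854.GM.win_nat {M : ℕ | Solved S Q P R δ M} hv hτ hE
      (s := 1 / ((j : ℝ) + 1)) (by positivity) hθ1 (fun ε hε => by
        refine ⟨C, fun X hX => (h X hX).trans ?_⟩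
        have hX1 : (1 : ℝ) ≤ X := by exact_mod_cast hX
        apply mul_le_mul_of_nonneg_left _ hC
        apply Real.rpow_le_rpow_of_exponent_le hX1
        linarith)
    exact ⟨R, δ, E, hδ, h3, h4⟩
  choose R δ G hδ hG1 hG2 using hall
  have hlim : Tendsto (fun m : ℕ => ENNReal.ofReal ((1 / ((m : ℝ) + 1) + τ) / (1 - θ))) atTop
      (𝓝 (ENNReal.ofReal ((0 + τ) / (1 - θ)))) :=
    ENNReal.tendsto_ofReal ((tendsto_one_div_add_atTop_nhds_zero_nat.add_const τ).div_const (1 - θ))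
  rw [zero_add] at hlim
  refine ⟨⋂ m, G m, ge_of_tendsto' hlim fun m => (dimH_mono (Set.iInter_subset _ m)).trans (hG1 m),
    fun α hα hαE => ?_⟩
  rw [Set.mem_iInter] at hαE
  push Not at hαE
  obtain ⟨j, hj⟩ := hαE
  obtain ⟨k₀, hk⟩ := hG2 j α hα hj
  refine ⟨R j, δ j, k₀, hδ j, fun k hk1 M hM => ?_⟩
  by_contra hcon
  push Not at hcon
  exact (hk k hk1 _ hcon).2 hM

/-- **Theorem.** Let `v ≥ 1` be a sequence of exponent of convergence at most `τ ≥ 0` and `θ < 1`. There is a set `E` of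
Hausdorff dimension at most `τ / (1 - θ)` such that for all `α > 0` outside `E` and all `S`, `Q`, `P` there are `R` and
`δ > 0` such that for all but finitely many `k` there is no solution of `A X + B Y = C Z` with
`gcd (X, Y) ≤ Q rad (gcd (X, Y))`, coefficients `A, B, C ≤ exp (M ^ δ)` without prime factors larger than `P` and `X`, `Y`,
`Z` products of spread at most `S` of degrees between `R` and `M ^ δ`, whose largest factor `M` satisfies
`|M - α v_k| ≤ v_k ^ θ`. The sequences `v_k = (k + 1) ^ b` and `v_k = b ^ k` have exponent of convergence at most `1 / b`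
and `0`. -/
theorem result :
    (∀ (v : ℕ → ℝ) (τ θ : ℝ), (∀ k, 1 ≤ v k) → 0 ≤ τ → ExpLe v τ → θ < 1 →
      ∃ E : Set ℝ, dimH E ≤ ENNReal.ofReal (τ / (1 - θ)) ∧ ∀ α : ℝ, 0 < α → α ∉ E → ∀ S Q P : ℕ,
        ∃ (R : ℕ) (δ : ℝ) (k₀ : ℕ), 0 < δ ∧ ∀ k : ℕ, k₀ ≤ k → ∀ M : ℕ, Solved S Q P R δ M →
          (v k) ^ θ < |(M : ℝ) - α * v k|) ∧
    (∀ b : ℝ, 0 < b → ExpLe (fun n : ℕ => ((n : ℝ) + 1) ^ b) (1 / b)) ∧
    (∀ b : ℝ, 1 < b → ExpLe (fun n : ℕ => b ^ n) 0) := by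
  refine ⟨fun v τ θ hv hτ hE hθ1 => ?_, fun κ hκ => Pool.Agent.Y854.GM.expLe_pow κ hκ,
    fun b hb => Pool.Agent.Y854.GM.expLe_geom b hb⟩
  have hall : ∀ c : ℕ × ℕ × ℕ, _ := fun c => one_family c.1 c.2.1 c.2.2 hv hτ hE hθ1
  choose E hE1 hE2 using hall
  refine ⟨⋃ c, E c, ?_, fun α hα hαE S Q P => ?_⟩
  · rw [dimH_iUnion]
    exact iSup_le hE1
  · rw [Set.mem_iUnion] at hαE
    push Not at hαE
    exact hE2 (S, Q, P) α hα (hαE (S, Q, P))

end Pool.Agent.Results.MP_4ffbf9_nt.FactorWindows
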