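import Mathlib
import Pool.Agent.Y902.GN.Ss2

/-!
# `A X + B Y = C Z` in products of bounded spread and high degree

For all `S`, `Q`, `P` and `ε > 0` there are `R` and `δ > 0` such that for all `T ≥ 1` and all positive
integers `A`, `B`, `C ≤ exp (T ^ δ)` without prime factors larger than `P`, at most `T ^ ε` triples
`(X, Y, Z)` satisfy `A X + B Y = C Z`, `gcd (X, Y) ≤ Q * rad (gcd (X, Y))` and have product
representations of spread at most `S`, of degrees between `R` and `T ^ δ`, with all factors at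
most `T`.

Method: the factors are split into their parts with small and with large prime factors; the former
take few values, the latter are pairwise coprime (if they occur at least twice). The theorem on
sums of three terms (ultraproduct, `p`-adic determinant method with unbounded exponents as
coefficients, decomposition of the relations between the terms) shows that on a large set of
solutions one factor of each product is constant.
-/

set_option autoImplicit false

namespace Pool.Agent.Results.MP_4ffbf9_nt.HighDegreeCount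

/-- `X` has a product representation of spread at most `S`, of degree between `R` and `D`, with all
factors at most `T` -/
def IsProduct (S T R : ℕ) (D : ℝ) (X : ℕ) : Prop :=
  ∃ l : List ℕ, l.prod = X ∧ R ≤ l.length ∧ (l.length : ℝ) ≤ D ∧ (∀ a ∈ l, 1 ≤ a ∧ a ≤ T) ∧
    ∀ a ∈ l, ∀ a' ∈ l, a ≤ a' + S

/-- the solutions -/
def Solutions (S Q T R : ℕ) (D : ℝ) (A B C : ℕ) : Set (ℕ × ℕ × ℕ) :=
  {w | A * w.1 + B * w.2.1 = C * w.2.2 ∧
    Nat.gcd w.1 w.2.1 ≤ Q * ∏ p ∈ (Nat.gcd w.1 w.2.1).primeFactors, p ∧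
    IsProduct S T R D w.1 ∧ IsProduct S T R D w.2.1 ∧ IsProduct S T R D w.2.2}

open Pool.Agent.Y902.GN

theorem list_rep (b S : ℕ) : ∀ l : List ℕ, (∀ a ∈ l, b ≤ a ∧ a ≤ b + S) →
    ∃ k : Fin (S + 1) → ℕ, l.prod = ∏ t : Fin (S + 1), (b + (t : ℕ)) ^ k t ∧
      ∑ t, k t = l.length := by
  intro l
  induction l with
  | nil =>
    intro _
    exact ⟨fun _ => 0, by simp, by simp⟩
  | cons a l ih =>
    intro h
    obtain ⟨k, h1, h2⟩ := ih fun a' ha' => h a' (List.mem_cons_of_mem _ ha')
    obtain ⟨h3, h4⟩ := h a List.mem_cons_self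
    obtain ⟨t0, ht0⟩ : ∃ t0 : Fin (S + 1), (t0 : ℕ) = a - b := ⟨⟨a - b, by omega⟩, rfl⟩
    refine ⟨fun t => (if t = t0 then 1 else 0) + k t, ?_, ?_⟩
    · have h5 : ∀ t : Fin (S + 1), (b + (t : ℕ)) ^ ((if t = t0 then 1 else 0) + k t) =
          (if t = t0 then b + (t : ℕ) else 1) * (b + (t : ℕ)) ^ k t := by
        intro t
        rw [pow_add]
        split_ifs <;> simp
      rw [List.prod_cons, h1, Finset.prod_congr rfl fun t _ => h5 t, Finset.prod_mul_distrib,
        Finset.prod_ite_eq' Finset.univ t0 (fun t => b + (t : ℕ)), if_pos (Finset.mem_univ _), ht0]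
      congr 1
      omega
    · rw [Finset.sum_add_distrib, h2, Finset.sum_ite_eq' Finset.univ t0 (fun _ => 1),
        if_pos (Finset.mem_univ _), List.length_cons]
      omega

theorem rep {S T R : ℕ} {D : ℝ} {X : ℕ} (h : IsProduct S T (R + 1) D X) :
    ∃ (b : ℕ) (k : Fin (S + 1) → ℕ), (1 ≤ b ∧ b ≤ T) ∧
      X = ∏ t : Fin (S + 1), (b + (t : ℕ)) ^ k t ∧ R ≤ ∑ t, k t ∧ ((∑ t, k t : ℕ) : ℝ) ≤ D := by
  obtain ⟨l, h1, h2, h3, h4, h5⟩ := h
  have hne : l.toFinset.Nonempty := by
    rw [List.toFinset_nonempty_iff]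
    intro h
    rw [h] at h2
    simp at h2
  obtain ⟨b, hb, hmin⟩ := Finset.exists_min_image l.toFinset (fun a => a) hne
  have hbl : b ∈ l := List.mem_toFinset.1 hb
  obtain ⟨k, hk1, hk2⟩ := list_rep b S l fun a ha =>
    ⟨hmin a (List.mem_toFinset.2 ha), h5 a ha b hbl⟩
  refine ⟨b, k, h4 b hbl, by rw [← h1, hk1], ?_, ?_⟩
  · rw [hk2]
    omega
  · rw [hk2]
    exact h3

/-- For all `S`, `Q`, `P` and `ε > 0` there are `R` and `δ > 0` such that for all `T ≥ 1` and all
positive integers `A, B, C ≤ exp (T ^ δ)` without prime factors larger than `P` there are at most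
`T ^ ε` solutions in products of spread at most `S`, of degrees between `R` and `T ^ δ`, with all
factors at most `T`. -/
theorem result (S Q P : ℕ) (ε : ℝ) (hε : 0 < ε) : ∃ (R : ℕ) (δ : ℝ), 0 < δ ∧
    ∀ T A B C : ℕ, 1 ≤ T → (∀ a ∈ ({A, B, C} : Finset ℕ), 0 < a ∧
      (a : ℝ) ≤ Real.exp ((T : ℝ) ^ δ) ∧ ∀ p : ℕ, p.Prime → p ∣ a → p ≤ P) →
      (Solutions S Q T R ((T : ℝ) ^ δ) A B C).Finite ∧
        ((Solutions S Q T R ((T : ℝ) ^ δ) A B C).ncard : ℝ) ≤ (T : ℝ) ^ ε := by
  classical
  obtain ⟨R, δ, hδ, H⟩ := ss S Q P ε hε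
  refine ⟨R + 1, δ, hδ, fun T A B C hT hABC => ?_⟩
  refine fin_of_bound _ _ fun U hU => ?_
  obtain ⟨f, hf⟩ : ∃ f : ℕ × ℕ × ℕ → Fin 3 → ℕ, ∀ w, f w = ![w.1, w.2.1, w.2.2] :=
    ⟨_, fun _ => rfl⟩
  have hinj : Function.Injective f := by
    intro w w' h
    rw [hf, hf] at h
    have h0 := congrFun h 0
    have h1 := congrFun h 1
    have h2 := congrFun h 2
    simp only [Matrix.cons_val] at h0 h1 h2
    exact Prod.ext h0 (Prod.ext h1 h2)
  rw [← Finset.card_image_of_injective U hinj]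
  refine H T hT ![A, B, C] ?_ _ ?_
  · intro i
    have hm : (![A, B, C] : Fin 3 → ℕ) i ∈ ({A, B, C} : Finset ℕ) := by
      fin_cases i <;> simp
    obtain ⟨h1, h2, h3⟩ := hABC _ hm
    exact ⟨h1.ne', h2, h3⟩
  · intro W hW
    obtain ⟨w, hw, rfl⟩ := Finset.mem_image.1 hW
    obtain ⟨h1, h2, h3, h4, h5⟩ := hU w hw
    obtain ⟨b0, k0, c1, c2, c3, c4⟩ := rep h3
    obtain ⟨b1, k1, d1, d2, d3, d4⟩ := rep h4
    obtain ⟨b2, k2, e1, e2, e3, e4⟩ := rep h5
    refine ⟨![b0, b1, b2], ![k0, k1, k2], ?_, ?_, ?_, ?_, ?_, ?_⟩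
    · intro i
      fin_cases i
      · exact c1
      · exact d1
      · exact e1
    · intro i
      rw [hf]
      fin_cases i
      · exact c2
      · exact d2
      · exact e2
    · intro i
      fin_cases i
      · exact c3
      · exact d3
      · exact e3
    · intro i
      fin_cases i
      · exact c4
      · exact d4
      · exact e4
    · rw [hf]
      exact h1
    · rw [hf]
      exact h2

end Pool.Agent.Results.MP_4ffbf9_nt.HighDegreeCount
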